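import Pool.Agent.H224R3.Vis7

set_option autoImplicit false

namespace Pool.Agent.Results.MP_af711c_co.VisibilityCount

open Pool.Agent.H224R3.Vis

theorem lower_bound {p n : ℕ} (hp : 4 ≤ p) (hn : 4 * p ≤ n) :
    (((n : ℝ) - 2 - n / p) / 2) * (Real.log n - Real.log p) - ((n : ℝ) / p + 2) * Real.log n
      - n * Real.log 3 ≤ Real.log (numVis n) := by
  have hpR : (4 : ℝ) ≤ p := by exact_mod_cast hp
  have hnR : (4 : ℝ) * p ≤ n := by exact_mod_cast hn
  obtain ⟨K, m, hK1, hK2, hKm⟩ : ∃ K m : ℕ, n / p ≤ K ∧ K ≤ n / p + 1 ∧ n = 2 * m + 1 + K := by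
    have hq : n / p ≤ n / 4 := Nat.div_le_div_left hp (by norm_num)
    by_cases hpar : (n - 1 - n / p) % 2 = 0
    · exact ⟨n / p, (n - 1 - n / p) / 2, le_rfl, by omega, by omega⟩
    · exact ⟨n / p + 1, (n - 1 - (n / p + 1)) / 2, by omega, le_rfl, by omega⟩
  have hq4 : 4 ≤ n / p := (Nat.le_div_iff_mul_le (by omega)).2 (by linarith)
  have hq : n / p ≤ n / 4 := Nat.div_le_div_left hp (by norm_num)
  have hm1 : 1 ≤ m := by omega
  have hcount := count_lower (m := m) (K := K) hm1 (by omega)
  rw [← hKm] at hcount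
  have hnpos : (0 : ℝ) < n := by linarith
  have hN : 0 < numVis n := by
    rcases Nat.eq_zero_or_pos (numVis n) with h | h
    · rw [h, zero_mul] at hcount
      have : 0 < (K + 1) ^ m := by positivity
      omega
    · exact h
  have hNR : (0 : ℝ) < numVis n := by exact_mod_cast hN
  have hlog : (m : ℝ) * Real.log (K + 1) ≤
      Real.log (numVis n) + (K * Real.log n + (Real.log n + n * Real.log 3)) := by
    have h1 : ((K : ℝ) + 1) ^ m ≤ numVis n * ((n : ℝ) ^ K * (n * 3 ^ n)) := by
      exact_mod_cast hcount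
    have h2 := Real.log_le_log (by positivity) h1
    rw [Real.log_pow, Real.log_mul hNR.ne' (by positivity), Real.log_mul (by positivity)
      (by positivity), Real.log_mul hnpos.ne' (by positivity), Real.log_pow, Real.log_pow] at h2
    exact h2
  have hdiv : (n : ℝ) / p < K + 1 := by
    rw [div_lt_iff₀ (by linarith)]
    have h1 := Nat.lt_div_mul_add (a := n) (b := p) (by omega)
    have h2 : (n : ℝ) < (n / p : ℕ) * p + p := by exact_mod_cast h1
    have h3 : ((n / p : ℕ) : ℝ) ≤ K := by exact_mod_cast hK1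
    nlinarith
  have hKle : (K : ℝ) ≤ n / p + 1 := by
    have h1 : ((n / p : ℕ) : ℝ) ≤ n / p := Nat.cast_div_le
    have h2 : (K : ℝ) ≤ ((n / p : ℕ) : ℝ) + 1 := by exact_mod_cast hK2
    linarith
  have hmle : ((n : ℝ) - 2 - n / p) / 2 ≤ m := by
    have h1 : (n : ℝ) = 2 * m + 1 + K := by exact_mod_cast hKm
    linarith
  have hlogp : Real.log n - Real.log p ≤ Real.log (K + 1) := by
    rw [← Real.log_div hnpos.ne' (by linarith)]
    exact Real.log_le_log (by positivity) hdiv.le
  have hlognp : 0 ≤ Real.log n - Real.log p := by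
    rw [sub_nonneg]
    exact Real.log_le_log (by linarith) (by linarith)
  have hlogn : 0 ≤ Real.log n := Real.log_nonneg (by linarith)
  have h1 : (((n : ℝ) - 2 - n / p) / 2) * (Real.log n - Real.log p) ≤ m * Real.log (K + 1) := by
    calc (((n : ℝ) - 2 - n / p) / 2) * (Real.log n - Real.log p) ≤
        m * (Real.log n - Real.log p) := mul_le_mul_of_nonneg_right hmle hlognp
      _ ≤ m * Real.log (K + 1) := mul_le_mul_of_nonneg_left hlogp (Nat.cast_nonneg _)
  have h2 : (K : ℝ) * Real.log n + Real.log n ≤ ((n : ℝ) / p + 2) * Real.log n := by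
    nlinarith
  linarith

/-- For every c < 1/2, the number N(n) of isomorphism classes of visibility graphs of simple
polygons with n vertices satisfies log₂ N(n) ≥ c · n · log₂ n for all large n. -/
theorem result : ∀ c : ℝ, c < 1 / 2 → ∀ᶠ n : ℕ in Filter.atTop,
    c * (n * Real.logb 2 n) ≤ Real.logb 2 (numVis n) := by
  intro c hc
  obtain ⟨p, hp⟩ := exists_nat_gt (max 4 (3 / (1 - 2 * c)))
  have hp4 : (4 : ℝ) < p := lt_of_le_of_lt (le_max_left _ _) hp
  have hp4' : 4 ≤ p := by
    have : (4 : ℝ) ≤ p := hp4.le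
    exact_mod_cast this
  have hp3 : 3 / (1 - 2 * c) < p := lt_of_le_of_lt (le_max_right _ _) hp
  have hc' : 0 < 1 - 2 * c := by linarith
  have hp0 : (0 : ℝ) < p := by linarith
  set η : ℝ := 1 / 2 - 3 / (2 * p) - c with hη
  have hη0 : 0 < η := by
    rw [div_lt_iff₀ hc'] at hp3
    have : 3 / (2 * (p : ℝ)) < (1 - 2 * c) / 2 := by
      rw [div_lt_iff₀ (by positivity)]
      nlinarith
    rw [hη]; linarith
  have hlog_tendsto : Filter.Tendsto (fun n : ℕ => Real.log (n : ℝ)) Filter.atTop Filter.atTop :=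
    Real.tendsto_log_atTop.comp tendsto_natCast_atTop_atTop
  have hcast : Filter.Tendsto (fun n : ℕ => (n : ℝ)) Filter.atTop Filter.atTop :=
    tendsto_natCast_atTop_atTop
  filter_upwards [Filter.eventually_ge_atTop (4 * p),
    hlog_tendsto.eventually_ge_atTop (2 * (Real.log p + Real.log 3) / η),
    hcast.eventually_ge_atTop (6 / η)] with n hn h1 h2
  have hlb := lower_bound hp4' hn
  have hnR : (4 : ℝ) * p ≤ n := by exact_mod_cast hn
  have hnpos : (0 : ℝ) < n := by linarith
  have hL0 : 0 ≤ Real.log n := Real.log_nonneg (by linarith)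
  have hLp : 0 ≤ Real.log p := Real.log_nonneg (by linarith)
  have hL3 : 0 ≤ Real.log 3 := Real.log_nonneg (by norm_num)
  set L := Real.log n with hL
  rw [div_le_iff₀ hη0] at h1 h2
  have key : c * (n * L) ≤ Real.log (numVis n) := by
    refine le_trans ?_ hlb
    have e1 : (((n : ℝ) - 2 - n / p) / 2) * (L - Real.log p) - ((n : ℝ) / p + 2) * L
        - n * Real.log 3 = (c + η) * (n * L) - 3 * L -
          (((n : ℝ) - 2 - n / p) / 2) * Real.log p - n * Real.log 3 := by
      rw [hη]
      field_simp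
      ring
    rw [e1]
    have e2 : (((n : ℝ) - 2 - n / p) / 2) * Real.log p ≤ n * Real.log p := by
      apply mul_le_mul_of_nonneg_right _ hLp
      have : 0 ≤ (n : ℝ) / p := by positivity
      linarith
    have e3 : 3 * L ≤ η / 2 * (n * L) := by nlinarith
    have e4 : n * (Real.log p + Real.log 3) ≤ η / 2 * (n * L) := by nlinarith
    linarith
  have hlog2 : 0 < Real.log 2 := Real.log_pos (by norm_num)
  unfold Real.logb
  rw [le_div_iff₀ hlog2]
  calc c * (n * (Real.log n / Real.log 2)) * Real.log 2 = c * (n * L) := by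
        rw [hL]; field_simp
    _ ≤ _ := key

end Pool.Agent.Results.MP_af711c_co.VisibilityCount
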